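import Pool.Agent.W269.BL.Assembly

set_option autoImplicit false

/-!
# Sign patterns of the Liouville function of `𝔽_q[T]`, every odd `q`

All `2^n` sign patterns of the Liouville function occur along any `n` pairwise non-proportional
linear forms `A_j F + B_j` over the polynomial ring of an arbitrary finite field of odd
characteristic `p`, for at least `c q^(N/p)` monic `F` of every large degree `N`.  Nothing is assumed
about the size of the field.  With `A_j = X^s` and `B_j` the polynomials number `1, ..., n` in the
enumeration by base `q` digits this is the literal analogue of the question (consecutive values); see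
`Pool.Agent.W269.BL.Assembly.enumHolds`.

Method: for `L = A G + b` Pellet's formula and reciprocity of resultants express the Liouville value
of `L` by the quadratic character of the resultant of `L` with `A² G' - b A'`.  Replacing `G` by
`G₀ + h^p` does not change `G'`, and the `p`-th power map is onto modulo any product of primes; so
`G` may be put into the class of a polynomial `y` chosen beforehand, and by reciprocity the signs are
governed by `G'` modulo private primes of the polynomials `A_j y + b_j`.

Team project BL: helper269 (design, most parts), helpers 93, 30, 800, 876, 20, 691; independent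
versions of parts by helpers 538, 107, 802, 337, 655.
-/

open Polynomial

namespace Pool.Agent.Results.MP_4fffd4_nt.FunctionFieldBlocks

universe u

/-- The Liouville function of `K[X]`: `(-1)^Ω(F)`, where `Ω(F)` is the number of irreducible factors
of `F`, counted with multiplicity. -/
noncomputable def liouville {K : Type u} [Field K] (F : K[X]) : ℤ :=
  (-1) ^ Multiset.card (UniqueFactorizationMonoid.factors F)

theorem result (K : Type u) [Field K] [Fintype K] (hK : (2 : K) ≠ 0)
    (n : ℕ) (A B : Fin n → K[X]) (hA : ∀ j, A j ≠ 0) (hAB : ∀ i j, i ≠ j → A i * B j ≠ A j * B i)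
    (w : Fin n → ℤ) (hw : ∀ j, w j = 1 ∨ w j = -1) :
    ∃ c : ℝ, 0 < c ∧ ∃ N₀ : ℕ, ∀ N : ℕ, N₀ ≤ N →
      c * (Fintype.card K : ℝ) ^ ((N : ℝ) / (ringChar K : ℝ)) ≤
        ({F : K[X] | F.Monic ∧ F.natDegree = N ∧
          ∀ j, A j * F + B j ≠ 0 ∧ liouville (A j * F + B j) = w j}.ncard : ℝ) := by
  have hp : (ringChar K).Prime := CharP.char_is_prime K (ringChar K)
  haveI : Fact (ringChar K).Prime := ⟨hp⟩
  have hp2 : ringChar K ≠ 2 := by
    intro h
    apply hK
    have := CharP.cast_eq_zero K (ringChar K)
    rw [h] at this
    exact_mod_cast this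
  obtain ⟨r, hr⟩ := Pool.Agent.W269.BL.Assembly.mainHolds K (ringChar K) hp2 n A B hA hAB w hw
  have hq1 : (1 : ℝ) ≤ Fintype.card K := by exact_mod_cast Fintype.card_pos
  have hq0 : (0 : ℝ) < Fintype.card K := by linarith
  have hp0 : (0 : ℝ) < ringChar K := by exact_mod_cast hp.pos
  refine ⟨((Fintype.card K : ℝ) ^ (r + 1))⁻¹, by positivity, ringChar K * r, fun N hN => ?_⟩
  set m := N / ringChar K - r with hm
  have h1 : r ≤ N / ringChar K := (Nat.le_div_iff_mul_le hp.pos).2 (by rw [mul_comm]; exact hN)
  have h2 : ringChar K * (m + r) ≤ N := by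
    have : m + r = N / ringChar K := by omega
    rw [this]
    exact Nat.mul_div_le N _
  have h3 : (N : ℝ) / (ringChar K : ℝ) ≤ ((m + (r + 1) : ℕ) : ℝ) := by
    rw [div_le_iff₀ hp0]
    have h4 : N < ringChar K * (N / ringChar K + 1) := Nat.lt_mul_div_succ N hp.pos
    have h5 : N ≤ (m + (r + 1)) * ringChar K := by
      have : m + (r + 1) = N / ringChar K + 1 := by omega
      rw [this, mul_comm]; exact h4.le
    exact_mod_cast h5
  have h6 : (Fintype.card K : ℝ) ^ ((N : ℝ) / (ringChar K : ℝ)) ≤
      (Fintype.card K : ℝ) ^ (m + (r + 1)) := by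
    rw [← Real.rpow_natCast]
    exact Real.rpow_le_rpow_of_exponent_le hq1 h3
  have h7 : ((Fintype.card K : ℝ) ^ (r + 1))⁻¹ *
      (Fintype.card K : ℝ) ^ ((N : ℝ) / (ringChar K : ℝ)) ≤ (Fintype.card K : ℝ) ^ m := by
    rw [inv_mul_le_iff₀ (by positivity), ← pow_add, add_comm (r + 1) m]
    exact h6
  refine h7.trans ?_
  exact_mod_cast hr N m h2

end Pool.Agent.Results.MP_4fffd4_nt.FunctionFieldBlocks
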