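import Pool.Agent.H220M.Fin1

/-!
# Block complexity: almost all functions which differ from `λ` only at a few primes

A completely multiplicative function with values `±1` at the positive integers is a
`f : ℕ →*₀ ℤ` with `f p = ±1` for all primes `p` (for instance the Liouville function).  For such a
`g` and a finite set `Q` of primes, `family g Q` is the set of the `2 ^ |Q|` such functions which
agree with `g` at all primes outside `Q`; `cnt f t x` is the number of `m < x` with
`(f(m+1), …, f(m+n)) = t`.

For all `n` and `η > 0` there is `R` such that for EVERY set `Q` of at least `R` primes, at every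
scale `x ≥ x₀` all but `η 2^|Q|` members `f` of `family g Q` have every sign pattern of length `n` at
least `δ x` times up to `x`, and all but `η 2^|Q|` members have all sign patterns of length `n` with
upper density at least `δ`.  Here `δ` and `x₀` depend only on `n`, `η` and `Q`, not on `g`.
-/

set_option autoImplicit false

namespace Pool.Agent.Results.MP_4fffd4_nt.SparseModifications

open Filter Pool.Agent.H220M

theorem result (n : ℕ) (η : ℝ) (hη : 0 < η) :
    ∃ R : ℕ, ∀ Q : Finset ℕ, (∀ q ∈ Q, q.Prime) → R ≤ Q.card →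
      ∃ δ : ℝ, 0 < δ ∧ ∃ x₀ : ℕ, ∀ g : ℕ →*₀ ℤ, (∀ p : ℕ, p.Prime → g p = 1 ∨ g p = -1) →
        (family g Q).Finite ∧ (family g Q).ncard = 2 ^ Q.card ∧
        (∀ x ≥ x₀, ({f ∈ family g Q | ∃ t : Fin n → ℤ, (∀ j, t j = 1 ∨ t j = -1) ∧
            (cnt f t x : ℝ) < δ * x}.ncard : ℝ) ≤ η * 2 ^ Q.card) ∧
        ({f ∈ family g Q | ∃ t : Fin n → ℤ, (∀ j, t j = 1 ∨ t j = -1) ∧
            ∀ᶠ x : ℕ in atTop, (cnt f t x : ℝ) < δ * x}.ncard : ℝ) ≤ η * 2 ^ Q.card :=
  finalA n η hη

end Pool.Agent.Results.MP_4fffd4_nt.SparseModifications
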